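import Pool.Agent.helper11.RPQ.SpecT
import Pool.Agent.helper62.RS.All

set_option autoImplicit false

open scoped MatrixGroups ContDiff Topology UpperHalfPlane ComplexConjugate
open UpperHalfPlane MeasureTheory Filter Set

namespace Pool.Agent.RPQ

open Pool.Agent.RS
open Pool.Agent.MS (BA BB st pf gk Dk amk)

theorem FLP_proof : FLP_stmt := by
  intro Γ R c φ ψ hc hφ2 hφi hψi heq g
  obtain ⟨f1, f2, f3⟩ := A_FL0
  obtain ⟨-, -, hYc, -, hLc, -, -⟩ := f1 (1 / 4) c hc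
  obtain ⟨hcont, hmono, -⟩ := QU.A_CA1 ℂ
  have hz : ∀ n : WithTop ℕ∞, (0 : WithTop ℕ∞) ≤ n := fun n => zero_le
  have hT : ∀ c' : ℍ → ℂ, TB (1 / 4) c' → Continuous (pk R c') ∧ HasCompactSupport (pk R c') := by
    intro c' hc'
    obtain ⟨h1, h2⟩ := f2 (1 / 4) R c' hc'
    exact ⟨(hcont _).mp (hmono _ _ _ (hz _) h1), h2⟩
  have hφg2 : QU.CD 2 (fun z => φ (g • z)) := (A_LPI φ g).1 2 hφ2
  have hφgc : Continuous (fun z => φ (g • z)) := (hcont _).mp (hmono _ _ _ (hz _) hφg2)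
  have hgc : Continuous (fun z : ℍ => g • z) := continuous_const_smul g
  have hψgc : Continuous (fun z => ψ (g • z)) := hψi.1.comp hgc
  have hφl : ∀ z, QU.lap (fun z => φ (g • z)) z = ((1 / 4 + R ^ 2 : ℝ) : ℂ) * φ (g • z) + ψ (g • z) := by
    intro z
    rw [(A_LPI φ g).2 hφ2 z, heq]
  have hlf : QU.lap (pk R c) = fun z => pk R (QU.lap c) z - (1 + 2 * (R : ℂ) * Complex.I) * pk R (QU.dY c) z +
      ((1 / 4 + R ^ 2 : ℝ) : ℂ) * pk R c z := funext (fun z => FL4_lap R c hc.1 z)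
  obtain ⟨kc, ks⟩ := hT c hc
  obtain ⟨kYc, kYs⟩ := hT _ hYc
  obtain ⟨kLc, kLs⟩ := hT _ hLc
  have hlc : Continuous (QU.lap (pk R c)) := by
    rw [hlf]
    exact (kLc.sub (continuous_const.mul kYc)).add (continuous_const.mul kc)
  have hls : HasCompactSupport (QU.lap (pk R c)) := by
    rw [hlf]
    exact (kLs.sub (kYs.mul_left)).add (ks.mul_left)
  have hG := FL4_green (pk R c) (fun z => φ (g • z)) (f2 (1 / 4) R c hc).1 hφg2 ks hlc
    (by
      rw [show QU.lap (fun z => φ (g • z)) = fun z => ((1 / 4 + R ^ 2 : ℝ) : ℂ) * φ (g • z) + ψ (g • z)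
        from funext hφl]
      exact (continuous_const.mul hφgc).add hψgc) hls
  have hint : ∀ f h : ℍ → ℂ, Continuous f → HasCompactSupport f → Continuous h →
      Integrable (fun z => f z * h z) := by
    intro f h hf hfs hh
    exact Continuous.integrable_of_hasCompactSupport (hf.mul hh) hfs.mul_right
  have e1 : ∫ z : ℍ, pk R c z * QU.lap (fun z => φ (g • z)) z =
      ((1 / 4 + R ^ 2 : ℝ) : ℂ) * Wf (pk R c) φ g + Wf (pk R c) ψ g := by
    unfold Wf
    rw [← integral_const_mul, ← integral_add ((hint _ _ kc ks hφgc).const_mul _) (hint _ _ kc ks hψgc)]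
    refine integral_congr_ae (Eventually.of_forall (fun z => ?_))
    change pk R c z * QU.lap (fun z => φ (g • z)) z =
      ((1 / 4 + R ^ 2 : ℝ) : ℂ) * (pk R c z * φ (g • z)) + pk R c z * ψ (g • z)
    rw [hφl z]
    ring
  have e2 : ∫ z : ℍ, QU.lap (pk R c) z * φ (g • z) = Wf (pk R (QU.lap c)) φ g -
      (1 + 2 * (R : ℂ) * Complex.I) * Wf (pk R (QU.dY c)) φ g +
      ((1 / 4 + R ^ 2 : ℝ) : ℂ) * Wf (pk R c) φ g := by
    unfold Wf
    have i1 := hint _ _ kLc kLs hφgc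
    have i2 := (hint _ _ kYc kYs hφgc).const_mul (1 + 2 * (R : ℂ) * Complex.I)
    have i3 := (hint _ _ kc ks hφgc).const_mul (((1 / 4 + R ^ 2 : ℝ) : ℂ))
    have i12 : Integrable (fun z => pk R (QU.lap c) z * φ (g • z) -
        (1 + 2 * (R : ℂ) * Complex.I) * (pk R (QU.dY c) z * φ (g • z))) := i1.sub i2
    rw [← integral_const_mul, ← integral_const_mul, ← integral_sub i1 i2, ← integral_add i12 i3]
    refine integral_congr_ae (Eventually.of_forall (fun z => ?_))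
    change QU.lap (pk R c) z * φ (g • z) = pk R (QU.lap c) z * φ (g • z) -
        (1 + 2 * (R : ℂ) * Complex.I) * (pk R (QU.dY c) z * φ (g • z)) +
        ((1 / 4 + R ^ 2 : ℝ) : ℂ) * (pk R c z * φ (g • z))
    rw [FL4_lap R c hc.1 z]
    ring
  have e3 : ((1 / 4 + R ^ 2 : ℝ) : ℂ) * Wf (pk R c) φ g + Wf (pk R c) ψ g = Wf (pk R (QU.lap c)) φ g -
      (1 + 2 * (R : ℂ) * Complex.I) * Wf (pk R (QU.dY c)) φ g +
      ((1 / 4 + R ^ 2 : ℝ) : ℂ) * Wf (pk R c) φ g := by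
    rw [← e1, ← e2]
    exact hG
  linear_combination e3

end Pool.Agent.RPQ
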