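import Pool.Agent.helper11.RPQ.SpecG

set_option autoImplicit false

open scoped MatrixGroups ContDiff Topology UpperHalfPlane ComplexConjugate
open UpperHalfPlane MeasureTheory Filter Set

namespace Pool.Agent.RPQ

open Pool.Agent.RS
open Pool.Agent.MS (BA BB st pf gk Dk amk)

theorem LAN_aux (hSTP : STP_stmt) (C η ε : ℝ) (N : ℕ) (hC : 1 ≤ C) (hη : 0 < η) (hη2 : η ≤ 1 / 20)
    (hε : 0 < ε) (hε2 : ε ≤ 1 / 20) (n : ℕ) : ∃ C' R0 : ℝ, 1 ≤ C' ∧ 1 ≤ R0 ∧ ∀ R : ℝ, R0 ≤ R →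
    ∀ (g : SL(2, ℝ)) (b : ℕ → SL(2, ℝ)), (∀ j < N, b j ∈ Bx C η ε R) → ∀ i j : ℕ, i < j → j ≤ N →
    j ≤ i + n → (pth (tau R) g b i)⁻¹ * pth (tau R) g b j ∈ SN C' η ε R (((j : ℝ) - i) * tau R) := by
  induction n with
  | zero =>
    refine ⟨1, 1, le_rfl, le_rfl, ?_⟩
    intro R _ g b _ i j hij _ hj
    omega
  | succ n ih =>
    obtain ⟨C', R0, hC', hR0, h⟩ := ih
    obtain ⟨C3, R1, hC3, hR1, h3⟩ := hSTP C C' η ε hC hC' hη hη2 hε hε2
    refine ⟨C3, max R0 R1, hC'.trans hC3, hR0.trans (le_max_left _ _), ?_⟩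
    intro R hR g b hb i j hij hjN hj
    have hR0' : R0 ≤ R := (le_max_left _ _).trans hR
    have hR1' : R1 ≤ R := (le_max_right _ _).trans hR
    obtain ⟨h4, h5⟩ := h3 R hR1' (b i) (hb i (by omega))
    have hstep : pth (tau R) g b (i + 1) = pth (tau R) g b i * aM (tau R) * b i := rfl
    by_cases hj1 : j = i + 1
    · subst hj1
      have e1 : (pth (tau R) g b i)⁻¹ * pth (tau R) g b (i + 1) = aM (tau R) * b i := by
        rw [hstep]; group
      have e2 : (((i + 1 : ℕ) : ℝ) - i) * tau R = tau R := by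
        push_cast; ring
      rw [e1, e2]
      exact h4
    · have e1 : (pth (tau R) g b i)⁻¹ * pth (tau R) g b j =
          aM (tau R) * b i * ((pth (tau R) g b (i + 1))⁻¹ * pth (tau R) g b j) := by
        rw [hstep]; group
      have h6 := h R hR0' g b hb (i + 1) j (by omega) hjN (by omega)
      have hτ : 0 ≤ tau R := by
        unfold tau
        have : 0 ≤ Real.log R := Real.log_nonneg (hR0.trans hR0')
        positivity
      have hji : (0 : ℝ) ≤ (j : ℝ) - ((i + 1 : ℕ) : ℝ) := by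
        have : i + 1 ≤ j := by omega
        have h7 : ((i + 1 : ℕ) : ℝ) ≤ j := by exact_mod_cast this
        linarith
      have h8 := h5 _ _ (mul_nonneg hji hτ) h6
      have e2 : tau R + ((j : ℝ) - ((i + 1 : ℕ) : ℝ)) * tau R = ((j : ℝ) - i) * tau R := by
        push_cast; ring
      rw [e2] at h8
      rw [e1]
      exact h8

theorem LAN_proof (hSTP : STP_stmt) : LAN_stmt := by
  intro C η ε N hC hη hη2 hε hε2
  obtain ⟨C', R0, hC', hR0, h⟩ := LAN_aux hSTP C η ε N hC hη hη2 hε hε2 N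
  refine ⟨C', R0, hC', hR0, ?_⟩
  intro R hR g b hb i j hij hjN
  exact h R hR g b hb i j hij hjN (by omega)

end Pool.Agent.RPQ
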