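import Pool.Agent.helper11.RPQ.SpecT
import Pool.Agent.helper62.RS.All

set_option autoImplicit false

open scoped MatrixGroups ContDiff Topology UpperHalfPlane ComplexConjugate
open UpperHalfPlane MeasureTheory Filter Set

namespace Pool.Agent.RPQ

open Pool.Agent.RS
open Pool.Agent.MS (BA BB st pf gk Dk amk)

theorem MOM_ex : ∃ κ, MO κ := by
  obtain ⟨c₀, hc₀, hM⟩ := QU.A_MAS
  let f : ContDiffBump (0 : ℝ) := ⟨1 / 128, 1 / 64, by norm_num, by norm_num⟩
  have hf0 : ∀ t : ℝ, 1 / 64 ≤ t → f t = 0 := by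
    intro t ht
    apply f.zero_of_le_dist
    show (1 / 64 : ℝ) ≤ dist t 0
    rw [Real.dist_eq, sub_zero]
    exact ht.trans (le_abs_self t)
  have hfs : ContDiff ℝ ∞ (f : ℝ → ℝ) := f.contDiff
  have hpos : 0 < ∫ t in (0 : ℝ)..(1 / 64), f t := by
    apply intervalIntegral.intervalIntegral_pos_of_pos_on
    · exact (f.continuous).intervalIntegrable _ _
    · intro x hx
      apply f.pos_of_mem_ball
      show dist x 0 < 1 / 64
      rw [Real.dist_eq, sub_zero, abs_of_pos hx.1]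
      exact hx.2
    · norm_num
  set m : ℝ := c₀ * ∫ t in (0 : ℝ)..(1 / 64), f t with hm
  have hm0 : 0 < m := mul_pos hc₀ hpos
  refine ⟨fun t => f t / m, ?_, ?_, ?_, ?_⟩
  · exact hfs.div_const m
  · intro s
    exact div_nonneg f.nonneg hm0.le
  · intro s hs
    show f s / m = 0
    rw [hf0 s hs, zero_div]
  · intro z
    have h1 := hM (fun t => f t / m) (1 / 64) (hfs.div_const m) (by norm_num)
      (by intro t ht; show f t / m = 0; rw [hf0 t ht, zero_div]) z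
    rw [h1, intervalIntegral.integral_div, ← mul_div_assoc, ← hm, div_self hm0.ne']

theorem MOM_RK (κ : ℝ → ℝ) (hκ : MO κ) (ρ : ℝ) (hρ : 0 < ρ) : QU.RK (mo κ ρ) := by
  refine ⟨?_, ρ ^ 2 / 64, ?_⟩
  · exact (hκ.smooth.comp (contDiff_id.div_const (ρ ^ 2))).div_const (ρ ^ 2)
  · intro t ht
    unfold mo
    rw [hκ.supp, zero_div]
    rw [le_div_iff₀ (by positivity)]
    linarith

theorem MOM_mass (κ : ℝ → ℝ) (hκ : MO κ) (ρ : ℝ) (hρ : 0 < ρ) (z : ℍ) :
    ∫ w : ℍ, mo κ ρ (QU.tt z w) = 1 := by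
  obtain ⟨c₀, hc₀, hM⟩ := QU.A_MAS
  have h1 := hM κ (1 / 64) hκ.smooth (by norm_num) hκ.supp z
  rw [hκ.mass z] at h1
  have hρ2 : (0 : ℝ) < ρ ^ 2 := by positivity
  have hR := MOM_RK κ hκ ρ hρ
  have h2 := hM (mo κ ρ) (ρ ^ 2 / 64) hR.smooth (by positivity) (by
    intro t ht
    unfold mo
    rw [hκ.supp, zero_div]
    rw [le_div_iff₀ hρ2]
    linarith) z
  rw [h2]
  have h3 : ∫ t in (0 : ℝ)..(ρ ^ 2 / 64), mo κ ρ t = ∫ t in (0 : ℝ)..(1 / 64), κ t := by
    unfold mo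
    rw [intervalIntegral.integral_div, intervalIntegral.integral_comp_div (fun t => κ t) hρ2.ne']
    have e : ρ ^ 2 / 64 / ρ ^ 2 = 1 / 64 := by field_simp
    rw [zero_div, e, smul_eq_mul]
    field_simp
  rw [h3, ← h1]

theorem MOM_proof : MOM_stmt := by
  refine ⟨MOM_ex, ?_⟩
  intro κ hκ ρ hρ
  have hR := MOM_RK κ hκ ρ hρ
  refine ⟨hR, MOM_mass κ hκ ρ hρ, ?_⟩
  intro V0 C hV hC z
  have hpos : ∀ t, 0 ≤ mo κ ρ t := fun t => div_nonneg (hκ.nonneg _) (by positivity)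
  have hsymm : (fun w : ℍ => mo κ ρ (QU.tt z w)) = fun w : ℍ => mo κ ρ (QU.tt w z) := by
    funext w
    rw [QU.A_TTT.2.2.1 z w]
  have hcs : HasCompactSupport (fun w : ℍ => mo κ ρ (QU.tt z w)) := by
    rw [hsymm]
    exact QU.A_LAK.2.2.1 (mo κ ρ) z hR
  have hcont : Continuous (fun w : ℍ => mo κ ρ (QU.tt z w)) := by
    have h1 : Continuous (fun w : ℍ => QU.tt z w) :=
      QU.A_TTT.2.2.2.2.1.comp (Continuous.prodMk continuous_const continuous_id)
    exact hR.smooth.continuous.comp h1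
  have hint : Integrable (fun w : ℍ => mo κ ρ (QU.tt z w)) :=
    hcont.integrable_of_hasCompactSupport hcs
  have h2 : ‖QU.conv (mo κ ρ) V0 z‖ ≤ ∫ w : ℍ, mo κ ρ (QU.tt z w) * C := by
    unfold QU.conv
    refine norm_integral_le_of_norm_le (hint.mul_const C) (Eventually.of_forall (fun w => ?_))
    rw [norm_smul, Real.norm_of_nonneg (hpos _)]
    exact mul_le_mul_of_nonneg_left (hC w) (hpos _)
  rw [integral_mul_const, MOM_mass κ hκ ρ hρ z, one_mul] at h2
  exact h2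

end Pool.Agent.RPQ
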